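import Mathlib
import Pool.Agent.Q263.LD.ModP

/-! # The determinant `D(d,p)` for quadratic nonresidues `d` modulo `p ≡ 1 (mod 4)` -/

set_option autoImplicit false

open Finset Matrix

namespace Pool.Agent.Results.MP_b23923_nt.NonresidueDeterminant

/-- the matrix `((j² + d k²)/p)`, `2 ≤ j,k ≤ (p-1)/2` -/
def matD (p : ℕ) [Fact p.Prime] (d : ℤ) : Matrix (Fin ((p - 3) / 2)) (Fin ((p - 3) / 2)) ℤ :=
  Matrix.of fun j k => legendreSym p (((j : ℤ) + 2) ^ 2 + d * ((k : ℤ) + 2) ^ 2)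

/-- `B(d,p) = ∑_{x=1}^{(p-1)/2} (x(x²+d)/p)` -/
def B (p : ℕ) [Fact p.Prime] (d : ℤ) : ℤ :=
  ∑ x ∈ Icc 1 ((p - 1) / 2), legendreSym p ((x : ℤ) * ((x : ℤ) ^ 2 + d))

open Q263.LD

section

variable {p : ℕ} [Fact p.Prime] {v : ℕ} (hp : p = 4 * v + 1) {g : ZMod p}
  (hg : IsPrimitiveRoot g (p - 1)) [NeZero (2 * v)] (ψ : AddChar (ZMod (2 * v)) (ZMod p))
  (hψ : ∀ u : ZMod (2 * v), ψ u = (g ^ 2) ^ u.val)

/-- the absolute least residue -/
def ix (x : ZMod p) : ℕ := x.valMinAbs.natAbs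

lemma ix_cast (x : ZMod p) : ((ix x : ℕ) : ZMod p) = x ∨ ((ix x : ℕ) : ZMod p) = -x := by
  rcases Int.natAbs_eq x.valMinAbs with h | h
  · left
    have h2 := congrArg (fun z : ℤ => (z : ZMod p)) h
    simp only [ZMod.coe_valMinAbs, Int.cast_natCast] at h2
    exact h2.symm
  · right
    have h2 := congrArg (fun z : ℤ => (z : ZMod p)) h
    simp only [ZMod.coe_valMinAbs, Int.cast_neg, Int.cast_natCast] at h2
    rw [h2, neg_neg]
    unfold ix
    rw [← h2]

lemma ix_sq (x : ZMod p) : ((ix x : ℕ) : ZMod p) ^ 2 = x ^ 2 := by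
  rcases ix_cast x with h | h <;> rw [h]
  ring

include hp in
lemma ix_le (x : ZMod p) : ix x ≤ 2 * v := by
  have := ZMod.natAbs_valMinAbs_le x
  unfold ix
  omega

include hψ in
lemma ix_sq' (a : ZMod (2 * v)) : ((ix (g ^ a.val) : ℕ) : ZMod p) ^ 2 = ψ a := by
  rw [ix_sq, hψ, ← pow_mul, ← pow_mul, mul_comm]

include hp hg hψ in
lemma psi_inj {a b : ZMod (2 * v)} (h : ψ a = ψ b) : a = b := by
  rw [hψ, hψ] at h
  have := (sq_prim hp hg).pow_inj (ZMod.val_lt a) (ZMod.val_lt b) h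
  exact ZMod.val_injective _ this

include hp hg hψ in
lemma ix_inj {a b : ZMod (2 * v)} (h : ix (g ^ a.val) = ix (g ^ b.val)) : a = b := by
  apply psi_inj hp hg ψ hψ
  rw [← ix_sq' ψ hψ a, ← ix_sq' ψ hψ b, h]

include hg in
lemma ix_pos (a : ZMod (2 * v)) : 1 ≤ ix (g ^ a.val) := by
  by_contra h
  have h0 : ix (g ^ a.val) = 0 := by omega
  have h1 := ix_sq (g ^ a.val)
  rw [h0, Nat.cast_zero] at h1
  have h2 : (g ^ a.val) ^ 2 ≠ 0 := pow_ne_zero _ (pow_ne_zero _ (g_ne_zero hg))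
  apply h2
  rw [← h1]
  ring

include hp hg hψ in
lemma ix_two {a : ZMod (2 * v)} (ha : a ≠ 0) : 2 ≤ ix (g ^ a.val) := by
  have h1 := ix_pos hg a
  by_contra h
  have h0 : ix (g ^ a.val) = 1 := by omega
  have h2 := ix_sq' ψ hψ a
  rw [h0, Nat.cast_one, one_pow] at h2
  apply ha
  apply psi_inj hp hg ψ hψ
  rw [← h2]
  simp

include hp hg hψ in
/-- the entry at a pair of squares -/
lemma entry (s a b : ZMod (2 * v)) :
    quadraticChar (ZMod p) (ψ a + g * ψ s * ψ b) = cs v g ψ (a - b - s) := by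
  have h1 : ψ a + g * ψ s * ψ b = ψ (b + s) * (ψ (a - b - s) + g) := by
    have h2 : ψ a = ψ (b + s) * ψ (a - b - s) := by
      rw [← AddChar.map_add_eq_mul]
      congr 1
      ring
    rw [h2, AddChar.map_add_eq_mul ψ b s]
    ring
  rw [h1, map_mul, chi_psi hg ψ hψ, one_mul, cs]

include hp hg hψ in
lemma det_matD (d : ℤ) (s : ZMod (2 * v)) (hd : (d : ZMod p) = g * ψ s) :
    (matD p d).det = (Matrix.of fun a b : NZ (2 * v) => cs v g ψ (a - b - s)).det := by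
  classical
  have hv := v_pos hp
  set f : NZ (2 * v) → Fin ((p - 3) / 2) := fun a => ⟨ix (g ^ (a : ZMod (2 * v)).val) - 2, by
    have h1 := ix_two hp hg ψ hψ a.2
    have h2 := ix_le hp (g ^ (a : ZMod (2 * v)).val)
    omega⟩ with hf
  have hcard : Fintype.card (NZ (2 * v)) = Fintype.card (Fin ((p - 3) / 2)) := by
    rw [Fintype.card_fin, Fintype.card_subtype_compl, Fintype.card_subtype_eq, ZMod.card]
    omega
  have hinj : Function.Injective f := by
    intro a b hab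
    have h1 := congrArg Fin.val hab
    simp only [hf] at h1
    have h2 := ix_two hp hg ψ hψ a.2
    have h3 := ix_two hp hg ψ hψ b.2
    exact Subtype.ext (ix_inj hp hg ψ hψ (by omega))
  have hbij : Function.Bijective f := (Fintype.bijective_iff_injective_and_card f).mpr ⟨hinj, hcard⟩
  rw [← Matrix.det_submatrix_equiv_self (Equiv.ofBijective f hbij) (matD p d)]
  congr 1
  ext a b
  simp only [Matrix.submatrix_apply, Equiv.ofBijective_apply, matD, Matrix.of_apply]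
  have h1 : ∀ a : NZ (2 * v), ((((f a : ℕ) : ℤ) + 2 : ℤ) : ZMod p) ^ 2 = ψ a := by
    intro a
    rw [← ix_sq' ψ hψ (a : ZMod (2 * v))]
    congr 1
    have h2 := ix_two hp hg ψ hψ a.2
    have h3 : ((f a : ℕ) : ℤ) + 2 = (ix (g ^ (a : ZMod (2 * v)).val) : ℤ) := by
      simp only [hf]
      omega
    rw [h3]
    push_cast
    rfl
  rw [← entry hp hg ψ hψ s a b, legendreSym]
  congr 1
  rw [← h1 a, ← h1 b, ← hd]
  push_cast
  rfl

include hp hg hψ in
lemma B_eq (d : ℤ) (s : ZMod (2 * v)) (hd : (d : ZMod p) = g * ψ s) :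
    B p d = ∑ u, eps v u * cs v g ψ (u - s) := by
  classical
  unfold B
  have hn : (p - 1) / 2 = 2 * v := by omega
  rw [hn]
  symm
  have hmaps : ∀ a ∈ (univ : Finset (ZMod (2 * v))), ix (g ^ a.val) ∈ Icc 1 (2 * v) := by
    intro a _
    rw [Finset.mem_Icc]
    exact ⟨ix_pos hg a, ix_le hp _⟩
  have hinj : Set.InjOn (fun a : ZMod (2 * v) => ix (g ^ a.val))
      ((univ : Finset (ZMod (2 * v))) : Set (ZMod (2 * v))) := by
    intro a _ b _ hab
    exact ix_inj hp hg ψ hψ hab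
  have hsurj : Set.SurjOn (fun a : ZMod (2 * v) => ix (g ^ a.val))
      ((univ : Finset (ZMod (2 * v))) : Set (ZMod (2 * v))) (Icc 1 (2 * v) : Finset ℕ) := by
    apply Finset.surjOn_of_injOn_of_card_le _ hmaps hinj
    rw [Finset.card_univ, ZMod.card, Nat.card_Icc]
    omega
  apply Finset.sum_nbij (fun a : ZMod (2 * v) => ix (g ^ a.val)) hmaps hinj hsurj
  intro a _
  have h1 : quadraticChar (ZMod p) ((ix (g ^ a.val) : ℕ) : ZMod p) = eps v a := by
    have h2 : quadraticChar (ZMod p) ((ix (g ^ a.val) : ℕ) : ZMod p) =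
        quadraticChar (ZMod p) (g ^ a.val) := by
      rcases ix_cast (g ^ a.val) with h | h
      · rw [h]
      · rw [h, chi_neg' hp]
    rw [h2, map_pow, chi_g hp hg]
    rfl
  have h3 : quadraticChar (ZMod p) (ψ a + g * ψ s * ψ 0) = cs v g ψ (a - s) := by
    rw [entry hp hg ψ hψ s a 0, sub_zero]
  rw [legendreSym, ← h1, ← h3]
  push_cast
  rw [map_mul, ← ix_sq' ψ hψ a, hd]
  simp

end

/-- **Answer to Q1 (yes).** -/
theorem result (p : ℕ) [Fact p.Prime] (hp4 : p % 4 = 1) :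
    ∃ t : ℕ, 0 < t ∧ legendreSym p t = 1 ∧ ∀ d : ℤ, legendreSym p d = -1 →
      ((matD p d).det : ℚ) = 2 ^ (((p : ℤ) - 7) / 2) * (t : ℚ) ^ 2 * (B p d : ℚ) := by
  have hpr : p.Prime := Fact.out
  obtain ⟨v, hp⟩ : ∃ v, p = 4 * v + 1 := ⟨p / 4, by omega⟩
  have hv := v_pos hp
  have : NeZero (2 * v) := ⟨by omega⟩
  obtain ⟨g, hg⟩ := exists_gen p
  have hg1 : (g ^ 2) ^ (2 * v) = 1 := (sq_prim hp hg).pow_eq_one
  set ψ : AddChar (ZMod (2 * v)) (ZMod p) := AddChar.zmodChar (2 * v) hg1 with hψdef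
  have hψ : ∀ u : ZMod (2 * v), ψ u = (g ^ 2) ^ u.val := fun u => AddChar.zmodChar_apply _ u
  have hchi := chi_Nm hp hg ψ hψ
  have hleg : legendreSym p (((Nm v g ψ).det.natAbs : ℕ) : ℤ) = 1 := by
    rw [legendreSym]
    rcases Int.natAbs_eq (Nm v g ψ).det with h | h
    · rw [← h]; exact hchi
    · have h2 : (((Nm v g ψ).det.natAbs : ℕ) : ℤ) = -(Nm v g ψ).det := by omega
      rw [h2, Int.cast_neg, chi_neg' hp]
      exact hchi
  refine ⟨(Nm v g ψ).det.natAbs, ?_, hleg, ?_⟩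
  · rw [Nat.pos_iff_ne_zero]
    intro h0
    rw [h0] at hleg
    simp at hleg
  · intro d hd
    have hd0 : (d : ZMod p) ≠ 0 := by
      intro h0
      rw [legendreSym, h0] at hd
      simp at hd
    -- `d = g ψ(s)`
    have h1 : quadraticChar (ZMod p) ((d : ZMod p) * g⁻¹) = 1 := by
      have h2 : quadraticChar (ZMod p) ((d : ZMod p) * g⁻¹) * quadraticChar (ZMod p) g =
          quadraticChar (ZMod p) (d : ZMod p) := by
        rw [← map_mul, inv_mul_cancel_right₀ (g_ne_zero hg)]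
      rw [legendreSym] at hd
      rw [chi_g hp hg, hd] at h2
      linarith
    have hne : (d : ZMod p) * g⁻¹ ≠ 0 := mul_ne_zero hd0 (inv_ne_zero (g_ne_zero hg))
    rw [quadraticChar_one_iff_isSquare hne] at h1
    obtain ⟨y, hy⟩ := h1
    have hy0 : y ≠ 0 := by
      intro h0
      rw [h0, mul_zero] at hy
      exact hne hy
    have : NeZero (p - 1) := ⟨by omega⟩
    obtain ⟨i, -, hi⟩ := hg.eq_pow_of_pow_eq_one (ZMod.pow_card_sub_one_eq_one hy0)
    have hs : (d : ZMod p) = g * ψ (i : ZMod (2 * v)) := by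
      have h2 : ψ (i : ZMod (2 * v)) = (g ^ 2) ^ i := AddChar.zmodChar_apply' _ i
      rw [h2, ← pow_mul, mul_comm 2 i, pow_mul, hi, pow_two, ← hy]
      field_simp [g_ne_zero hg]
    have hmain := main_D hp hg ψ hψ (i : ZMod (2 * v))
    rw [← det_matD hp hg ψ hψ d _ hs, ← B_eq hp hg ψ hψ d _ hs] at hmain
    have h3 : ((matD p d).det : ℚ) * 2 = 4 ^ (v - 1) * ((Nm v g ψ).det : ℚ) ^ 2 * (B p d : ℚ) := by
      have : (2 * (matD p d).det : ℤ) = 4 ^ (v - 1) * (Nm v g ψ).det ^ 2 * B p d := hmain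
      have h4 : ((2 * (matD p d).det : ℤ) : ℚ) =
          ((4 ^ (v - 1) * (Nm v g ψ).det ^ 2 * B p d : ℤ) : ℚ) := by rw [this]
      rw [Int.cast_mul, Int.cast_mul, Int.cast_mul, Int.cast_pow, Int.cast_pow, Int.cast_ofNat,
        Int.cast_ofNat] at h4
      linarith
    have h4 : (((Nm v g ψ).det.natAbs : ℕ) : ℚ) ^ 2 = ((Nm v g ψ).det : ℚ) ^ 2 := by
      rcases Int.natAbs_eq (Nm v g ψ).det with h | h
      · have h6 : ((Nm v g ψ).det : ℚ) = (((Nm v g ψ).det.natAbs : ℕ) : ℚ) := by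
          rw [← Int.cast_natCast, ← h]
        rw [h6]
      · have h6 : ((Nm v g ψ).det : ℚ) = -(((Nm v g ψ).det.natAbs : ℕ) : ℚ) := by
          rw [← Int.cast_natCast, ← Int.cast_neg, ← h]
        rw [h6]
        ring
    have h5 : (((p : ℤ) - 7) / 2) = 2 * ((v - 1 : ℕ) : ℤ) - 1 := by omega
    rw [h4, h5, zpow_sub₀ (by norm_num), _root_.zpow_mul, zpow_natCast, zpow_one]
    norm_num
    linarith

end Pool.Agent.Results.MP_b23923_nt.NonresidueDeterminant
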